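import Mathlib

/-!
# Squad LPC (MP_37fa12_co): an upper bound for lattice packings of `ℝ^n`

Definitions. `V n` is `ℝ^n`. Polynomials with integer coefficients are lists (constant term first).
The norm of a vector is the square of its length.
-/

set_option autoImplicit false

noncomputable section

open MeasureTheory Filter Topology
open scoped RealInnerProductSpace

namespace Pool.Agent.LPC

/-- `ℝ^n` -/
abbrev V (n : ℕ) : Type := EuclideanSpace ℝ (Fin n)

/-- evaluation of a list of coefficients (Horner) -/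
def ev : List ℤ → ℝ → ℝ
  | [], _ => 0
  | a :: l, x => a + x * ev l x

/-- coefficient of `|x|^(2j)` in the Fourier transform of `|w|^(2k) e^(-|w|²/2)`, divided by
`(2π)^(n/2) e^(-|x|²/2)`: `(-1)^j C(k,j) (n+2j)(n+2j+2) ⋯ (n+2k-2)` -/
def tT (n k j : ℕ) : ℤ := (-1) ^ j * (k.choose j * ∏ i ∈ Finset.Ico j k, (n + 2 * i) : ℕ)

/-- the transform of a list of coefficients -/
def tr (n : ℕ) (q : List ℤ) : List ℤ :=
  (List.range q.length).map fun j => ∑ k ∈ Finset.range q.length, q.getD k 0 * tT n k j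

/-- the weight of a vector of norm `t` in the class inequality for a group with minimal norm at
least `s` -/
def wt (n : ℕ) (s τ t : ℝ) : ℝ := if t < (4 - τ) * s then 1 else if t ≤ τ * s then 1 / n else 0

/-- all nonzero vectors of `L` have norm at least `s` -/
def Mn {n : ℕ} (s : ℝ) (L : AddSubgroup (V n)) : Prop := ∀ v ∈ L, v ≠ 0 → s ≤ ‖v‖ ^ 2

/-- the number of points of `L` in the open ball of radius `R` around `0` -/
def cnt {n : ℕ} (L : AddSubgroup (V n)) (R : ℝ) : ℕ :=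
  Nat.card {v : V n // v ∈ L ∧ v ∈ Metric.ball (0 : V n) R}

/-- the volume of the ball of radius `R` in `ℝ^n` -/
def vb (n : ℕ) (R : ℝ) : ℝ := (volume (Metric.ball (0 : V n) R)).toReal

/-- at most `κ` points of `L` per unit of volume, in the limit -/
def Dn {n : ℕ} (κ : ℝ) (L : AddSubgroup (V n)) : Prop :=
  ∀ ε > 0, ∀ᶠ R in atTop, (cnt L R : ℝ) ≤ (κ + ε) * vb n R

/-- the quadratic form of `f` on the measures `∑_(x ∈ X) δ_x - c 1_(B_R) du` is nonnegative -/
def QF {n : ℕ} (f : V n → ℝ) : Prop := ∀ (X : Finset (V n)) (R c : ℝ),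
  0 ≤ (∑ x ∈ X, ∑ y ∈ X, f (x - y))
    - 2 * c * (∑ x ∈ X, ∫ u in Metric.ball (0 : V n) R, f (x - u))
    + c ^ 2 * (∫ u in Metric.ball (0 : V n) R, ∫ v in Metric.ball (0 : V n) R, f (u - v))

/-- `∫ |w|^(2k) e^(-a|w|²/2) cos⟨x, w⟩ dw` -/
def JJ (n k : ℕ) (x : V n) (a : ℝ) : ℝ :=
  ∫ w : V n, ‖w‖ ^ (2 * k) * Real.exp (-a * ‖w‖ ^ 2 / 2) * Real.cos ⟪x, w⟫

/-- its value -/
def KK (n k : ℕ) (x : V n) (a : ℝ) : ℝ :=
  (2 * Real.pi / a) ^ ((n : ℝ) / 2) *
    (∑ j ∈ Finset.range (k + 1), (tT n k j : ℝ) * ‖x‖ ^ (2 * j) / a ^ (k + j)) *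
      Real.exp (-‖x‖ ^ 2 / (2 * a))

end Pool.Agent.LPC
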