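import Pool.Agent.LPC.Defs

/-!
# Squad LPC (MP_37fa12_co): statements

THEOREM. Every lattice packing of `ℝ^10` has density at most `.1342` (centre density `.0526`; the
best bound known before is `.1434`, for all packings); similar bounds in other dimensions `n`.

PROOF. Scale the lattice `L` such that `|v|² ≥ s` for `v ≠ 0`. Let `f(x) = p(|x|²) e^(-|x|²/2)` have the
Fourier transform `(2π)^(n/2) q(|w|²) e^(-|w|²/2)`, `q ≥ 0`, and `f(x) ≤ W(|x|²)` for `|x|² ≥ s`, where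
`W = ∑ y_τ wt n s τ`. Class inequality: `∑_(v ∈ L, v ≠ 0) wt n s τ |v|² ≤ 2 (2^n - 1)`. Positivity of the form
`QF f` for `X = L ∩ B_R` and the ball `B_(R+r)` gives: density of the points times `(2π)^(n/2) q(0)` is at
most `f(0) + 2 (2^n - 1) ∑ y_τ`. No Poisson summation, no covolume.

Every row: file `Pool/Agent/HelperNN_LPC/XXX.lean`, import `Pool.Agent.LPC.Stmts`, namespace
`Pool.Agent.LPC.HNN`, theorem `xxx (hypotheses = rows in uses, in this order) : XxxStmt`.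
-/

set_option autoImplicit false

noncomputable section

open MeasureTheory Filter Topology
open scoped RealInnerProductSpace

namespace Pool.Agent.LPC

/-! ### Fourier transforms -/

/-- **GIN** (uses nothing). Integrability of polynomial times Gaussian.
PROOF. `e^(-a|w|²/2)` is integrable on `V n` (`GaussianFourier.integrable_cexp_neg_mul_sq_norm_add` with `c = 0`,
norm / real part), and `‖w‖^m e^(-a‖w‖²/2) ≤ C e^(-a‖w‖²/4)` because `t^m e^(-at²/4)` is bounded for `t ≥ 0`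
(continuous, tends to `0`; or `t^m ≤ 1 + t^(2m)` and `Real.pow_div_factorial_le_exp` for `a t²/4`). -/
def GinStmt : Prop := ∀ (n m : ℕ) (a : ℝ), 0 < a →
  Integrable (fun w : V n => ‖w‖ ^ m * Real.exp (-a * ‖w‖ ^ 2 / 2))

/-- **GFT** (uses nothing). The Fourier transform of the Gaussian.
PROOF. `GaussianFourier.integral_cexp_neg_mul_sq_norm_add` with `b = a/2`, `c = I`, `w = x`: the value is
`(π / (a/2))^(n/2) * cexp (I² ‖x‖² / (4 (a/2)))`; take real parts (the real part of `cexp (-(a/2)‖v‖² + I ⟨x,v⟩)` is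
`e^(-a‖v‖²/2) cos⟨x,v⟩`); `finrank = n`; complex power of a positive real number (`Complex.ofReal_cpow`).
`KK n 0 x a = (2π/a)^(n/2) e^(-‖x‖²/(2a))`, `tT n 0 0 = 1`. -/
def GftStmt : Prop := ∀ (n : ℕ) (x : V n) (a : ℝ), 0 < a → JJ n 0 x a = KK n 0 x a

/-- **GDR** (uses GIN). Derivative under the integral.
PROOF. `hasDerivAt_integral_of_dominated_loc_of_deriv_le` on the ball of radius `a/2` around `a`; the derivative of the
integrand is `-‖w‖²/2 * ‖w‖^(2k) e^(-b‖w‖²/2) cos⟨x,w⟩`, bounded by `‖w‖^(2k+2) e^(-(a/2)‖w‖²/2)` for `b > a/2` (GIN). -/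
def GdrStmt : Prop := ∀ (n k : ℕ) (x : V n) (a : ℝ), 0 < a →
  HasDerivAt (JJ n k x) (-(JJ n (k + 1) x a) / 2) a

/-- **KDR** (uses nothing). The same for the explicit value.
PROOF. Write `s = ‖x‖²`, `c_(k,j) = C(k,j) ∏_(j ≤ i < k) (n+2i)`, so `tT n k j = (-1)^j c_(k,j)`. The derivative of
`a^(-n/2) a^(-r) e^(-s/(2a))` is `(-(n/2+r) a^(-r-1) + (s/2) a^(-r-2)) a^(-n/2) e^(-s/(2a))`; so `-2` times the derivative of
`∑_j (-s)^j c_(k,j) a^(-n/2-k-j) e^(..)` is `∑_j (-s)^j ((n+2k+2j) c_(k,j) + c_(k,j-1)) a^(-n/2-(k+1)-j) e^(..)`, `j ≤ k+1`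
(`c_(k,-1) = 0`, `c_(k,k+1) = 0`), and `(n+2k+2j) c_(k,j) + c_(k,j-1) = c_(k+1,j)`: for `1 ≤ j ≤ k` divide by
`∏_(j ≤ i < k) (n+2i)`: `(n+2k+2j) C(k,j) + (n+2j-2) C(k,j-1) = (n+2k) C(k+1,j)`, because `C(k+1,j) = C(k,j) + C(k,j-1)` and
`2j C(k,j) = 2(k+1-j) C(k,j-1)` (`Nat.choose_succ_right_eq`). -/
def KdrStmt : Prop := ∀ (n k : ℕ) (x : V n) (a : ℝ), 0 < a →
  HasDerivAt (KK n k x) (-(KK n (k + 1) x a) / 2) a

/-- **FTR** (uses GIN, GFT, GDR, KDR). The transform of a polynomial times the Gaussian.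
PROOF. `JJ n k x a = KK n k x a` for all `a > 0` by induction on `k` (derivatives of equal functions on the open
half line: `HasDerivAt.unique` after `congr_of_eventuallyEq`); take `a = 1`. `ev q t = ∑_k q_k t^k` (`k < length`),
`ev (tr n q) s = ∑_j s^j ∑_k q_k tT n k j` (terms `j > k` are `0`: `Nat.choose_eq_zero_of_lt`); linearity of the
integral (GIN; `|cos| ≤ 1`, measurability). -/
def FtrStmt : Prop := ∀ (n : ℕ) (q : List ℤ) (x : V n),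
  Integrable (fun w : V n => ev q (‖w‖ ^ 2) * Real.exp (-‖w‖ ^ 2 / 2)) ∧
  ∫ w : V n, ev q (‖w‖ ^ 2) * Real.exp (-‖w‖ ^ 2 / 2) * Real.cos ⟪x, w⟫ =
    (2 * Real.pi) ^ ((n : ℝ) / 2) * (ev (tr n q) (‖x‖ ^ 2) * Real.exp (-‖x‖ ^ 2 / 2))

/-- **PDF** (uses nothing). Positivity.
PROOF. `cos⟨x-y,w⟩ = cos⟨x,w⟩cos⟨y,w⟩ + sin⟨x,w⟩sin⟨y,w⟩`. With `C(w) = ∑_(x∈X) cos⟨x,w⟩ - c ∫_(B_R) cos⟨u,w⟩ du` and `S(w)` the
same with `sin`, the expression is `∫ g(w) (C(w)² + S(w)²) dw ≥ 0`: exchange the integrals over `B_R`, `B_R × B_R` and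
over `w` (`MeasureTheory.integral_integral_swap`, `integral_prod`; everything is bounded by `|g(w)|`, the ball has finite
volume, the integrands are a.e. strongly measurable because `g` is and `cos` is continuous). -/
def PdfStmt : Prop := ∀ (n : ℕ) (g : V n → ℝ), Integrable g → (∀ w, 0 ≤ g w) →
  QF (fun x => ∫ w : V n, g w * Real.cos ⟪x, w⟫)

/-! ### The limit -/

/-- **FIN0** (uses nothing). A group with minimal norm `s > 0` has finitely many points in every ball.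
PROOF. `L` is discrete (uniformly separated), so closed (`AddSubgroup.isClosed_of_discrete`), and the closed ball is
compact; or: the balls of radius `√s / 3` around the points are disjoint and contained in a ball. -/
def Fin0Stmt : Prop := ∀ (n : ℕ) (s : ℝ) (L : AddSubgroup (V n)), 0 < s → Mn s L → ∀ R : ℝ,
  {v : V n | v ∈ L ∧ v ∈ Metric.ball (0 : V n) R}.Finite

/-- **ASY** (uses FIN0). The bound for the density of the points.
PROOF. Let `I = ∫ f`, `I' = ∫ |f|`. Given `δ > 0` choose `r > 0` with `∫_(|z| ≥ r) |f| < δ`. For `R > 0` let `X = L ∩ B_R`,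
`N = cnt L R`. `QF` with the ball `B_(R+r)` and `c = N / vb n (R+r)`: (1) the first sum is `≤ N A`; (2) for `x ∈ X`:
`∫_(B_(R+r)) f(x-u) du = I - ∫_(u ∉ B_(R+r)) f(x-u) du ≥ I - δ`, since `|x-u| ≥ r` there; (3) for `|u| < R` the inner integral
is `≤ I + δ`, for the other `u` it is `≤ I'`: the double integral is `≤ vb R (I+δ) + (vb (R+r) - vb R) I'`. So (if `N > 0`)
`0 ≤ A - 2c (I-δ) + c ((I+δ) v + I' (1-v))` with `v = vb R / vb (R+r) → 1` for `R → ∞` (`vb n R = R^n vb n 1`: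
`Measure.addHaar_ball`). So `c (2 (I-δ) - (I+δ) v - I'(1-v)) ≤ A`, the bracket is `≥ I - 4δ` for large `R`,
`N = c vb (R+r)`, `vb (R+r) / vb R → 1`: `N ≤ (A/I + ε) vb R` for large `R`. -/
def AsyStmt : Prop := ∀ (n : ℕ) (f : V n → ℝ) (A s : ℝ) (L : AddSubgroup (V n)), 1 ≤ n → 0 < s →
  Mn s L → Integrable f → QF f → 0 < ∫ x, f x → 0 ≤ A →
    (∀ X : Finset (V n), (∀ x ∈ X, x ∈ L) → ∀ x ∈ X, ∑ y ∈ X, f (x - y) ≤ A) →
      Dn (A / ∫ x, f x) L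

/-! ### The class inequality -/

/-- **IND** (uses nothing). `n + 1` vectors.
PROOF. `n + 1` vectors of `V n` are linearly dependent: `∑ a_i v_i = 0`, not all `a_i = 0`. Let `k` be an index with
`|a_k| ‖v_k‖` maximal; it is `> 0`. Take the inner product with `a_k v_k`:
`a_k² ‖v_k‖² = - ∑_(i ≠ k) a_i a_k ⟨v_i, v_k⟩ ≤ ∑_(i ≠ k) |a_i| |a_k| ‖v_i‖ ‖v_k‖ / n ≤ a_k² ‖v_k‖²`, and the first inequality is
strict unless all `a_i = 0` for `i ≠ k`, and then `a_k v_k = 0`, impossible. -/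
def IndStmt : Prop := ∀ n : ℕ, 1 ≤ n → ¬ ∃ v : Fin (n + 1) → V n, (∀ i, v i ≠ 0) ∧
  ∀ i j, i ≠ j → |⟪v i, v j⟫| < ‖v i‖ * ‖v j‖ / n

/-- **COS** (uses nothing). Two vectors of the same class.
PROOF. `x - y = 2z`, `x + y = 2(z + y)`, `z` and `z + y` are nonzero vectors of `L`: `‖x ± y‖² ≥ 4s`, so
`2 |⟨x,y⟩| ≤ ‖x‖² + ‖y‖² - 4s`; this is the first claim. For the second let `a = ‖x‖`, `b = ‖y‖`, `A = √(τ s)`, so
`a, b ≤ A`: `A² - a² - (2b/n)(A - a) = (A-a)(A + a - 2b/n) ≥ 0` (`n ≥ 2`, `b ≤ A`), so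
`a² + b² - 2ab/n ≤ A² + b² - 2Ab/n`, and in the same way this is `≤ 2A² - 2A²/n = 2 τ s (n-1)/n < 4s`. So
`2|⟨x,y⟩| ≤ a² + b² - 4s < 2ab/n`. -/
def CosStmt : Prop := ∀ (n : ℕ) (s : ℝ) (L : AddSubgroup (V n)), 2 ≤ n → 0 < s → Mn s L →
  ∀ x ∈ L, ∀ y ∈ L, ∀ z ∈ L, x - y = (2 : ℝ) • z → x ≠ y → x ≠ -y →
    4 * s ≤ ‖x‖ ^ 2 + ‖y‖ ^ 2 ∧
    ∀ τ : ℝ, τ * (n - 1) < 2 * n → ‖x‖ ^ 2 ≤ τ * s → ‖y‖ ^ 2 ≤ τ * s →
      |⟪x, y⟫| < ‖x‖ * ‖y‖ / n

/-- **CLA** (uses IND, COS). One class.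
PROOF. `T` is a finite set of nonzero vectors of `L` which are pairwise congruent modulo `2L` (`v - w = 2z`). (i) If some
`v ∈ T` has `‖v‖² < (4-τ)s`: for `w ∈ T`, `w ≠ ±v`, COS gives `‖w‖² ≥ 4s - ‖v‖² > τ s ≥ (4-τ)s`, so `wt = 0`: the sum is over a
subset of `{v, -v}`, `≤ 2` (`wt ≤ 1`, `n ≥ 2`). (ii) Otherwise every `wt` is `1/n` or `0`. Let `U` be the set of the `v ∈ T`
with `‖v‖² ≤ τ s`; it is enough that `card U ≤ 2n`. Choose a maximal `U' ⊆ U` with `v ≠ -w` for all `v, w ∈ U'`: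
`U ⊆ U' ∪ -U'`, so `card U ≤ 2 card U'`, and `card U' ≤ n`: `n + 1` elements would contradict IND with COS. -/
def ClaStmt : Prop := ∀ (n : ℕ) (s τ : ℝ) (L : AddSubgroup (V n)), 2 ≤ n → 0 < s → Mn s L →
  2 ≤ τ → τ * (n - 1) < 2 * n →
  ∀ T : Finset (V n), (∀ v ∈ T, v ∈ L ∧ v ≠ 0) →
    (∀ v ∈ T, ∀ w ∈ T, ∃ z ∈ L, v - w = (2 : ℝ) • z) → ∑ v ∈ T, wt n s τ (‖v‖ ^ 2) ≤ 2

/-- **QUO** (uses nothing). The number of classes modulo `2L`.
PROOF. `L` is discrete (`Mn`). As a `ℤ`-submodule of `V n` it is finite and free (instances / theorems for discrete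
submodules in `Mathlib/Algebra/Module/ZLattice/Basic.lean`) and its `ℤ`-rank is the real rank `r ≤ n` of its span
(`Real.finrank_eq_int_finrank_of_discrete`). With a basis of `L` let `c v` (for `v ∈ L`) be the vector of the parities of
the coordinates, an element of `Fin r → Fin 2`, which embeds into `Fin (2^n)`; equal parities: `v - w = 2z`. For `v ∉ L` let
`c v` be anything. -/
def QuoStmt : Prop := ∀ (n : ℕ) (s : ℝ) (L : AddSubgroup (V n)), 0 < s → Mn s L →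
  ∃ c : V n → Fin (2 ^ n), ∀ v ∈ L, ∀ w ∈ L, c v = c w → ∃ z ∈ L, v - w = (2 : ℝ) • z

/-- **CLS** (uses CLA, QUO). The class inequality.
PROOF. Split `T` by the colour `c v` (`Finset.sum_fiberwise`). The colour `c 0`: `v = 2z`, `z ≠ 0`, `‖v‖² ≥ 4s > τ s`
(`τ < 2n/(n-1) ≤ 4`), also `4s > (4-τ)s`: all weights are `0`. Each of the other `2^n - 1` colours contributes at most `2`
by CLA. -/
def ClsStmt : Prop := ∀ (n : ℕ) (s τ : ℝ) (L : AddSubgroup (V n)), 2 ≤ n → 0 < s → Mn s L →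
  2 ≤ τ → τ * (n - 1) < 2 * n →
  ∀ T : Finset (V n), (∀ v ∈ T, v ∈ L ∧ v ≠ 0) →
    ∑ v ∈ T, wt n s τ (‖v‖ ^ 2) ≤ 2 * (2 ^ n - 1)

/-! ### The volume fraction -/

/-- **SCA** (uses nothing). Scaling.
PROOF. `v ↦ t v` is a bijection from `L ∩ B_R` to `M ∩ B_(tR)`; `vb n (t R) = t^n vb n R` for `R > 0`. So
`cnt L R = cnt M (t R) ≤ (κ+ε') t^n vb n R` with `ε' = ε / t^n`. -/
def ScaStmt : Prop := ∀ (n : ℕ) (t κ : ℝ) (L M : AddSubgroup (V n)), 1 ≤ n → 0 < t →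
  (∀ v : V n, v ∈ M ↔ t⁻¹ • v ∈ L) → Dn κ M → Dn (t ^ n * κ) L

/-- **DEN** (uses FIN0). The density of the balls.
PROOF. `(⋃_(x∈L) B(x,1)) ∩ B_R ⊆ ⋃_(x ∈ L ∩ B_(R+1)) B(x,1)`, so the volume is at most `cnt L (R+1) * vol B_1`
(`measure_biUnion_finset_le` after FIN0), which is `≤ (κ+ε) vb n (R+1) vb n 1` for large `R`; `vb (R+1) / vb R → 1`. So the
limsup is `≤ (κ+ε) vb n 1` for all `ε > 0` (`Filter.limsup_le_of_le`, `ENNReal` arithmetic; then `ε → 0`). -/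
def DenStmt : Prop := ∀ (n : ℕ) (κ : ℝ) (L : AddSubgroup (V n)), 1 ≤ n → 0 ≤ κ → Mn 4 L → Dn κ L →
  Filter.limsup (fun R : ℝ =>
      volume ((⋃ x ∈ (L : Set (V n)), Metric.ball x 1) ∩ Metric.ball (0 : V n) R) /
        volume (Metric.ball (0 : V n) R)) atTop ≤ ENNReal.ofReal (κ * vb n 1)

/-! ### Assembly -/

/-- A certificate in dimension `n` with minimal norm `s`: `q` is the polynomial of the Fourier transform,
`y` the list of the pairs `(τ, y_τ)`. -/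
structure Cert (n : ℕ) (s : ℝ) (q : List ℤ) (y : List (ℝ × ℝ)) : Prop where
  dim : 2 ≤ n
  pos : 0 < s
  tau : ∀ a ∈ y, 2 ≤ a.1 ∧ a.1 * (n - 1) < 2 * n ∧ 0 ≤ a.2
  qpos : ∀ v : ℝ, 0 ≤ v → 0 ≤ ev q v
  q0 : 0 < ev (tr n (tr n q)) 0
  p0 : 0 ≤ ev (tr n q) 0
  le : ∀ u : ℝ, s ≤ u → ev (tr n q) u * Real.exp (-u / 2) ≤ (y.map fun a => a.2 * wt n s a.1 u).sum

/-- **ASM** (uses FTR, PDF, ASY, CLS, SCA, DEN). The bound from a certificate.
PROOF. `f x = ev (tr n q) (‖x‖²) e^(-‖x‖²/2) = ∫ g w cos⟨x,w⟩`, `g w = (2π)^(-n/2) ev q (‖w‖²) e^(-‖w‖²/2) ≥ 0` (FTR), so `QF f`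
(PDF); `f` is integrable and `∫ f = (2π)^(n/2) ev (tr n (tr n q)) 0` (FTR for `tr n q`, `x = 0`). Let `M = tL`, `t² = s/4`
(`AddSubgroup.map` or `comap` of the multiplication), `Mn s M`. For `X ⊆ M` finite and `x ∈ X`: `∑_(y∈X) f(x-y) = f(0) + ∑_(v∈T) f(v)`,
`T = {x - y} \ {0}`, `f v ≤ ∑ y_τ wt(‖v‖²)`; with CLS the sum is `≤ A = ev (tr n q) 0 + 2(2^n-1) ∑ y_τ`. ASY: `Dn (A/∫f) M`; SCA,
DEN: the limsup is at most `t^n A / ((2π)^(n/2) q0) vb n 1`, and `vb n 1 = π^(n/2) / Γ(n/2+1)` (`EuclideanSpace.volume_ball`),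
`t^n = (s/4)^(n/2)`. -/
def AsmStmt : Prop := ∀ (n : ℕ) (s : ℝ) (q : List ℤ) (y : List (ℝ × ℝ)), Cert n s q y →
  ∀ L : AddSubgroup (V n), (L : Set (V n)).Pairwise (fun x y => 2 ≤ dist x y) →
  Filter.limsup (fun R : ℝ =>
      volume ((⋃ x ∈ (L : Set (V n)), Metric.ball x 1) ∩ Metric.ball (0 : V n) R) /
        volume (Metric.ball (0 : V n) R)) atTop ≤
    ENNReal.ofReal ((s / 8) ^ ((n : ℝ) / 2) / Real.Gamma ((n : ℝ) / 2 + 1) *
      ((ev (tr n q) 0 + 2 * (2 ^ n - 1) * (y.map fun a => a.2).sum) / ev (tr n (tr n q)) 0))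

end Pool.Agent.LPC
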